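import Pool.Agent.H14R2.RD.Defs

namespace RC14
open scoped InnerProductSpace
open Finset

variable {V : Type*} [NormedAddCommGroup V] [InnerProductSpace ℂ V]

/-- Cauchy-Schwarz for a positive symmetric form (real parts) -/
theorem ZENO.cs (T : Module.End ℂ V) (hT : T.IsSymmetric)
    (hpos : ∀ v, 0 ≤ (⟪T v, v⟫_ℂ).re) (x y : V) :
    (⟪T x, y⟫_ℂ).re ^ 2 ≤ (⟪T x, x⟫_ℂ).re * (⟪T y, y⟫_ℂ).re := by
  have h1 : ∀ t : ℝ, 0 ≤ (⟪T y, y⟫_ℂ).re * (t * t) + (2 * (⟪T x, y⟫_ℂ).re) * t +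
      (⟪T x, x⟫_ℂ).re := by
    intro t
    have h2 := hpos (x + (t : ℂ) • y)
    have h3 : (⟪T y, x⟫_ℂ).re = (⟪T x, y⟫_ℂ).re := by
      rw [hT y x, ← inner_conj_symm, Complex.conj_re]
    rw [map_add, map_smul, inner_add_left, inner_add_right, inner_add_right, inner_smul_left,
      inner_smul_left, inner_smul_right, inner_smul_right] at h2
    simp only [Complex.conj_ofReal, Complex.add_re, Complex.re_ofReal_mul, h3] at h2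
    linarith
  have h4 := discrim_le_zero h1
  unfold discrim at h4
  nlinarith

theorem ZENO.sq_le (T : Module.End ℂ V) (hT : T.IsSymmetric)
    (hpos : ∀ v, 0 ≤ (⟪T v, v⟫_ℂ).re) (hle : ∀ v, (⟪T v, v⟫_ℂ).re ≤ ‖v‖ ^ 2) (w : V) :
    ‖T w‖ ^ 2 ≤ (⟪T w, w⟫_ℂ).re := by
  have h1 := ZENO.cs T hT hpos w (T w)
  have h2 : (⟪T w, T w⟫_ℂ).re = ‖T w‖ ^ 2 := by
    have := inner_self_eq_norm_sq (𝕜 := ℂ) (T w)
    simpa using this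
  rw [h2] at h1
  have h3 := hle (T w)
  have h4 := hpos w
  have h5 : (‖T w‖ ^ 2) ^ 2 ≤ (⟪T w, w⟫_ℂ).re * ‖T w‖ ^ 2 :=
    h1.trans (mul_le_mul_of_nonneg_left h3 h4)
  by_cases h0 : ‖T w‖ ^ 2 = 0
  · rw [h0]; exact h4
  · have h6 : 0 < ‖T w‖ ^ 2 := lt_of_le_of_ne (sq_nonneg _) (Ne.symm h0)
    rw [sq (‖T w‖ ^ 2)] at h5
    exact le_of_mul_le_mul_right h5 h6

theorem ZENO.step (T : Module.End ℂ V) (hT : T.IsSymmetric)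
    (hle : ∀ v, (⟪T v, v⟫_ℂ).re ≤ ‖v‖ ^ 2) (v w : V) :
    (⟪w, v⟫_ℂ).re - (⟪T w, v⟫_ℂ).re ≤
      √(‖v‖ ^ 2 - (⟪T v, v⟫_ℂ).re) * √(‖w‖ ^ 2 - (⟪T w, w⟫_ℂ).re) := by
  have hself : ∀ x : V, (⟪x, x⟫_ℂ).re = ‖x‖ ^ 2 := by
    intro x
    have := inner_self_eq_norm_sq (𝕜 := ℂ) x
    simpa using this
  have h1 : (1 - T : Module.End ℂ V).IsSymmetric := by
    intro x y
    simp only [LinearMap.sub_apply, Module.End.one_apply, inner_sub_left, inner_sub_right]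
    rw [hT x y]
  have h2 : ∀ x y : V, (⟪(1 - T : Module.End ℂ V) x, y⟫_ℂ).re =
      (⟪x, y⟫_ℂ).re - (⟪T x, y⟫_ℂ).re := by
    intro x y
    simp only [LinearMap.sub_apply, Module.End.one_apply, inner_sub_left, Complex.sub_re]
  have h3 := ZENO.cs (1 - T) h1 (fun x => by
    rw [h2, hself]
    have := hle x
    linarith) w v
  rw [h2, h2, h2, hself, hself] at h3
  have h4 : 0 ≤ ‖w‖ ^ 2 - (⟪T w, w⟫_ℂ).re := by linarith [hle w]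
  rw [mul_comm, ← Real.sqrt_mul h4]
  exact Real.le_sqrt_of_sq_le h3

theorem ZENO.cs2 {A B a b : ℝ} (hA : 0 ≤ A) (hB : 0 ≤ B) (ha : 0 ≤ a) (hb : 0 ≤ b) :
    √A * √B + √a * √b ≤ √(A + a) * √(B + b) := by
  rw [← Real.sqrt_mul (show 0 ≤ A + a by positivity) (B + b)]
  refine Real.le_sqrt_of_sq_le ?_
  have h1 := Real.sq_sqrt hA
  have h2 := Real.sq_sqrt hB
  have h3 := Real.sq_sqrt ha
  have h4 := Real.sq_sqrt hb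
  nlinarith [sq_nonneg (√A * √b - √a * √B)]

theorem ZENO.list (v : V) (L : List (Module.End ℂ V)) :
    (∀ T ∈ L, T.IsSymmetric ∧ (∀ v, 0 ≤ (⟪T v, v⟫_ℂ).re) ∧
      (∀ v, (⟪T v, v⟫_ℂ).re ≤ ‖v‖ ^ 2)) →
    0 ≤ (L.map fun T => ‖v‖ ^ 2 - (⟪T v, v⟫_ℂ).re).sum ∧ ‖L.prod v‖ ^ 2 ≤ ‖v‖ ^ 2 ∧
    ‖v‖ ^ 2 - (⟪L.prod v, v⟫_ℂ).re ≤ √((L.map fun T => ‖v‖ ^ 2 - (⟪T v, v⟫_ℂ).re).sum) *
      √(‖v‖ ^ 2 - ‖L.prod v‖ ^ 2) := by
  induction L with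
  | nil =>
    intro _
    have hself : (⟪v, v⟫_ℂ).re = ‖v‖ ^ 2 := by
      have := inner_self_eq_norm_sq (𝕜 := ℂ) v
      simpa using this
    simp only [List.map_nil, List.sum_nil, List.prod_nil, Module.End.one_apply, hself]
    simp
  | cons T L ih =>
    intro h
    obtain ⟨h1, h2, h3⟩ := h T List.mem_cons_self
    obtain ⟨i1, i2, i3⟩ := ih fun S hS => h S (List.mem_cons_of_mem _ hS)
    rw [List.map_cons, List.sum_cons, List.prod_cons, Module.End.mul_apply]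
    set w := L.prod v with hw
    set A := (L.map fun T => ‖v‖ ^ 2 - (⟪T v, v⟫_ℂ).re).sum with hA
    have h4 : 0 ≤ ‖v‖ ^ 2 - (⟪T v, v⟫_ℂ).re := by linarith [h3 v]
    have h5 := ZENO.sq_le T h1 h2 h3 w
    have h6 := h3 w
    have h7 := ZENO.step T h1 h3 v w
    refine ⟨by linarith, by linarith, ?_⟩
    have h8 := ZENO.cs2 i1 (sub_nonneg.mpr i2) h4 (sub_nonneg.mpr h6)
    have h9 : √(A + (‖v‖ ^ 2 - (⟪T v, v⟫_ℂ).re)) *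
        √(‖v‖ ^ 2 - ‖w‖ ^ 2 + (‖w‖ ^ 2 - (⟪T w, w⟫_ℂ).re)) ≤
        √(‖v‖ ^ 2 - (⟪T v, v⟫_ℂ).re + A) * √(‖v‖ ^ 2 - ‖T w‖ ^ 2) := by
      rw [add_comm A]
      refine mul_le_mul_of_nonneg_left (Real.sqrt_le_sqrt ?_) (Real.sqrt_nonneg _)
      linarith
    linarith

/-- products of positive contractions almost fixing `v` almost fix `v` (linear in the number) -/
theorem ZENO [FiniteDimensional ℂ V] (R : ℕ) (S : Fin R → Module.End ℂ V)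
    (hS : ∀ s, (S s).IsSymmetric)
    (hpos : ∀ s v, 0 ≤ (⟪S s v, v⟫_ℂ).re) (hle : ∀ s v, (⟪S s v, v⟫_ℂ).re ≤ ‖v‖ ^ 2) (v : V) :
    ‖v‖ ^ 2 - (⟪(List.ofFn S).prod v, v⟫_ℂ).re ≤ 2 * ∑ s, (‖v‖ ^ 2 - (⟪S s v, v⟫_ℂ).re) := by
  obtain ⟨h1, h2, h3⟩ := ZENO.list v (List.ofFn S) (by
    intro T hT
    obtain ⟨s, rfl⟩ := (List.mem_ofFn' S T).mp hT
    exact ⟨hS s, hpos s, hle s⟩)
  have h4 : ((List.ofFn S).map fun T => ‖v‖ ^ 2 - (⟪T v, v⟫_ℂ).re).sum =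
      ∑ s, (‖v‖ ^ 2 - (⟪S s v, v⟫_ℂ).re) := by
    rw [List.map_ofFn, List.sum_ofFn]
    rfl
  rw [h4] at h1 h3
  set A := ∑ s, (‖v‖ ^ 2 - (⟪S s v, v⟫_ℂ).re)
  set w := (List.ofFn S).prod v
  set y := ‖v‖ ^ 2 - (⟪w, v⟫_ℂ).re with hy
  by_cases hy0 : y ≤ 0
  · linarith
  · have hy1 : 0 < y := not_le.mp hy0
    have h5 : (⟪w, v⟫_ℂ).re ≤ ‖w‖ * ‖v‖ :=
      (Complex.re_le_norm _).trans (norm_inner_le_norm w v)
    have h6 : ‖v‖ ^ 2 - ‖w‖ ^ 2 ≤ 2 * y := by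
      nlinarith [sq_nonneg (‖v‖ - ‖w‖)]
    have h7 : y ^ 2 ≤ A * (‖v‖ ^ 2 - ‖w‖ ^ 2) := by
      have h8 := pow_le_pow_left₀ hy1.le h3 2
      rwa [mul_pow, Real.sq_sqrt h1, Real.sq_sqrt (sub_nonneg.mpr h2)] at h8
    have h9 : y * y ≤ (2 * A) * y := by
      nlinarith [mul_le_mul_of_nonneg_left h6 h1]
    exact le_of_mul_le_mul_right h9 hy1

end RC14
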